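import Pool.Agent.H200G.Stm2
import Pool.Agent.Q111.WR.Num

/-! # Project GR of helper200, job GR-COLNUM: the numbers of one group after the doublings. -/

set_option autoImplicit false

namespace Pool.Agent.Q208.GR

open Finset Pool.Agent.TH2.NU Pool.Agent.Y205.FW Pool.Agent.H200W Pool.Agent.H200G
open Pool.Agent.Q111.WR

/-- one class, the part of the sum of the squares -/
lemma cl_sq (N v a : ℝ) (hN : 0 ≤ N) (hv : 0 ≤ v) (ha : 16 * v ≤ a) :
    (256 * N) * v ^ 2 ≤ N * a ^ 2 := by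
  have e4 : (16 * v) ^ 2 ≤ a ^ 2 := pow_le_pow_left₀ (by positivity) ha 2
  have e5 : (256 * N) * v ^ 2 = N * (16 * v) ^ 2 := by ring
  rw [e5]
  exact mul_le_mul_of_nonneg_left e4 hN

/-- one class, the perimeter -/
lemma cl_per (N v a : ℝ) (hN : 0 ≤ N) (hv : 1 ≤ v) (ha : a + 1 ≤ 16 * (v + 1)) :
    8 * (N * (a + 1)) ≤ 256 * N * v := by
  have h1 : a + 1 ≤ 32 * v := by linarith
  have h2 : N * (a + 1) ≤ N * (32 * v) := mul_le_mul_of_nonneg_left h1 hN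
  linarith

/-- the binomial coefficient as a real number -/
lemma choose_real (a : ℕ) : 2 * (((a + 1).choose 2 : ℕ) : ℝ) = (a : ℝ) * ((a : ℝ) + 1) := by
  have h1 : 2 * (a + 1).choose 2 = a * (a + 1) := by
    rw [Nat.choose_two_right, Nat.add_sub_cancel, Nat.mul_comm (a + 1) a]
    exact Nat.mul_div_cancel' (Nat.even_mul_succ_self a).two_dvd
  exact_mod_cast h1

lemma cl_cd (N a h : ℝ) (hN : 0 ≤ N) (ha0 : 0 ≤ a) (ha : 16 * (a + 1) ≤ h) :
    N * (a * (a + 1)) ≤ h / 16 * (N * (a + 1)) := by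
  have h1 : a ≤ h / 16 := by linarith
  have h2 : 0 ≤ N * (a + 1) := mul_nonneg hN (by linarith)
  have h3 : a * (N * (a + 1)) ≤ h / 16 * (N * (a + 1)) := mul_le_mul_of_nonneg_right h1 h2
  linarith

/-- the last numbers -/
lemma fin_num (h W P Q c : ℝ) (hh : 512 ≤ h) (hW : 0 ≤ W) (hP : 8 * P ≤ W) (hQ : 257 * Q ≤ W)
    (hc : 2 * c ≤ h / 16 * (P + Q)) :
    3 / 2 * P + Q ≤ 24 / 125 * W ∧ 2 * c + (3 / 2 * P + Q) ≤ h * W / 100 := by
  have h0 : 0 ≤ h := by linarith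
  have h1 : h * (8 * P) ≤ h * W := mul_le_mul_of_nonneg_left hP h0
  have h2 : h * (257 * Q) ≤ h * W := mul_le_mul_of_nonneg_left hQ h0
  have h3 : 512 * W ≤ h * W := mul_le_mul_of_nonneg_right hh hW
  refine ⟨by linarith, ?_⟩
  linarith

/-- **Job GR-COLNUM.** -/
theorem colNum : S_ColNum := by
  intro k V N R hcol a g0 g1 hL
  obtain ⟨hV, hR, hbig, hbig2⟩ := hcol
  have h4k : ((4 : ℝ)) ^ k = ((2 : ℝ) ^ k) ^ 2 := by
    rw [← pow_mul, mul_comm, pow_mul]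
    norm_num
  rw [h4k] at hbig2
  have hm1 : (1 : ℝ) ≤ (2 : ℝ) ^ k := one_le_pow₀ (by norm_num)
  have hm0 : (0 : ℝ) < (2 : ℝ) ^ k := by linarith
  have het : et k = 256 * (2 : ℝ) ^ k := rfl
  -- `V` is not empty
  have hne : V.Nonempty := by
    rw [Finset.nonempty_iff_ne_empty]
    intro h0
    rw [h0, Finset.sum_empty] at hbig2
    have : 0 < 3 / 2 * (2 ^ 26 * ((2 : ℝ) ^ k) ^ 2) := by positivity
    linarith
  obtain ⟨v0, hv0⟩ := hne
  have hm2 : (2 : ℝ) ≤ (2 : ℝ) ^ k := by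
    have h1 := (hV v0 hv0).1
    have h2 := (hV v0 hv0).2.1
    have h3 : 2 ≤ 2 ^ k := by omega
    exact_mod_cast h3
  have hh512 : 512 ≤ et k := by rw [het]; linarith
  have hlo : ∀ v ∈ V, 16 * (v : ℝ) ≤ a v := by
    intro v hv
    have := (hL v hv).lo
    have h2 : 16 * v ≤ a v := by simpa using this
    exact_mod_cast h2
  have hhi : ∀ v ∈ V, (a v : ℝ) + 1 ≤ 16 * (v + 1) := by
    intro v hv
    have := (hL v hv).hi
    have h2 : a v + 1 ≤ 16 * (v + 1) := by simpa using this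
    exact_mod_cast h2
  have hv1 : ∀ v ∈ V, (1 : ℝ) ≤ v := fun v hv => by exact_mod_cast (hV v hv).1
  have hvm : ∀ v ∈ V, (v : ℝ) + 1 ≤ (2 : ℝ) ^ k := fun v hv => by exact_mod_cast (hV v hv).2.1
  have hN0 : ∀ v ∈ V, (0 : ℝ) ≤ N v := fun v _ => Nat.cast_nonneg _
  have hah : ∀ v ∈ V, 16 * ((a v : ℝ) + 1) ≤ et k := by
    intro v hv
    have := hhi v hv
    have := hvm v hv
    rw [het]; linarith
  have hRl : ∀ x ∈ R, 16 * ((x.2 : ℝ) + 1) ≤ et k := by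
    intro x hx
    have : (x.2 : ℝ) + 1 ≤ (2 : ℝ) ^ k := by exact_mod_cast (hR x hx).2.2.1
    rw [het]; linarith
  have hsq : ∑ v ∈ V, (256 * N v : ℝ) * (v : ℝ) ^ 2 ≤ ∑ v ∈ V, (N v : ℝ) * (a v : ℝ) ^ 2 :=
    Finset.sum_le_sum fun v hv => cl_sq _ _ _ (hN0 v hv) (by linarith [hv1 v hv]) (hlo v hv)
  have hWW : (WW V N : ℝ) = ∑ v ∈ V, 256 * (N v : ℝ) * v := by
    unfold WW
    push_cast
    rfl
  obtain ⟨W, hW⟩ : ∃ W : ℝ, W = ∑ v ∈ V, 256 * (N v : ℝ) * v := ⟨_, rfl⟩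
  obtain ⟨P, hP⟩ : ∃ P : ℝ, P = ∑ v ∈ V, (N v : ℝ) * ((a v : ℝ) + 1) := ⟨_, rfl⟩
  obtain ⟨Q, hQ⟩ : ∃ Q : ℝ, Q = (R.map fun x => (x.1 : ℝ) * ((x.2 : ℝ) + 1)).sum := ⟨_, rfl⟩
  have hE0 : E0 V N a R = 3 / 2 * P + Q := by rw [hP, hQ]; rfl
  have hW0 : 0 ≤ W := by rw [hW]; exact Finset.sum_nonneg fun v _ => by positivity
  have hPW : 8 * P ≤ W := by
    rw [hP, hW, Finset.mul_sum]
    exact Finset.sum_le_sum fun v hv => cl_per _ _ _ (hN0 v hv) (hv1 v hv) (hhi v hv)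
  -- `2 ^ k W ≥ ∑ 256 N v ^ 2`
  have hmW : ∑ v ∈ V, (256 * N v : ℝ) * (v : ℝ) ^ 2 ≤ (2 : ℝ) ^ k * W := by
    rw [hW, Finset.mul_sum]
    refine Finset.sum_le_sum fun v hv => ?_
    have e2 := hvm v hv
    have e3 := hv1 v hv
    have e4 : (v : ℝ) ^ 2 ≤ (2 : ℝ) ^ k * v := by
      have e5 : (v : ℝ) * v ≤ (2 : ℝ) ^ k * v := mul_le_mul_of_nonneg_right (by linarith) (by linarith)
      calc (v : ℝ) ^ 2 = (v : ℝ) * v := by ring
        _ ≤ _ := e5
    calc (256 * N v : ℝ) * (v : ℝ) ^ 2 ≤ (256 * N v : ℝ) * ((2 : ℝ) ^ k * v) :=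
          mul_le_mul_of_nonneg_left e4 (by positivity)
      _ = _ := by ring
  have hWbig : 3 / 2 * 2 ^ 26 * (2 : ℝ) ^ k ≤ W := by
    have e1 : (2 : ℝ) ^ k * (3 / 2 * 2 ^ 26 * (2 : ℝ) ^ k) ≤ (2 : ℝ) ^ k * W := by
      refine le_trans (le_of_eq ?_) (hbig2.trans hmW)
      ring
    exact le_of_mul_le_mul_left e1 hm0
  have hWR : 257 * 256 * et k * (R.length : ℝ) ≤ W := by
    have e0 : 257 * et k ^ 2 * (R.length : ℝ) ≤ 257 * et k ^ 2 * ((R.length : ℝ) + V.card) := by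
      apply mul_le_mul_of_nonneg_left _ (by positivity)
      have : (0 : ℝ) ≤ V.card := Nat.cast_nonneg _
      linarith
    have e1 : (2 : ℝ) ^ k * (257 * 256 * et k * (R.length : ℝ)) ≤ (2 : ℝ) ^ k * W := by
      refine le_trans (le_of_eq ?_) ((e0.trans hbig).trans hmW)
      rw [het]
      ring
    exact le_of_mul_le_mul_left e1 hm0
  have hQW : 257 * Q ≤ W := by
    have e1 : Q ≤ 256 * et k * R.length := by
      rw [hQ, ← list_const]
      exact list_sum_le R _ _ fun x hx => (hR x hx).2.2.2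
    linarith
  have hcLreal : 2 * (TH2.NU.condM (lf V N a R) : ℝ) ≤ et k / 16 * (P + Q) := by
    rw [condM_lf, Nat.cast_add, list_cast, Nat.cast_sum, mul_add, mul_add]
    refine add_le_add ?_ ?_
    · rw [hP, Finset.mul_sum, Finset.mul_sum]
      refine Finset.sum_le_sum fun v hv => ?_
      have e1 := choose_real (a v)
      have e2 := cl_cd (N v) (a v) (et k) (hN0 v hv) (Nat.cast_nonneg _) (hah v hv)
      have e3 : 2 * ((N v * (a v + 1).choose 2 : ℕ) : ℝ) = (N v : ℝ) * (2 * (((a v + 1).choose 2 : ℕ) : ℝ)) := by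
        push_cast; ring
      rw [e3, e1]
      exact e2
    · rw [hQ, ← list_mul, ← list_mul]
      refine list_sum_le R _ _ fun x hx => ?_
      have e1 := choose_real x.2
      have e2 := cl_cd (x.1) (x.2) (et k) (Nat.cast_nonneg _) (Nat.cast_nonneg _) (hRl x hx)
      have e3 : 2 * ((x.1 * (x.2 + 1).choose 2 : ℕ) : ℝ) = (x.1 : ℝ) * (2 * (((x.2 + 1).choose 2 : ℕ) : ℝ)) := by
        push_cast; ring
      rw [e3, e1]
      exact e2
  obtain ⟨f1, f2⟩ := fin_num (et k) W P Q _ hh512 hW0 hPW hQW hcLreal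
  refine ⟨by linarith, ?_, ?_, hbig.trans hsq, hsq, ?_, ?_, ?_, ?_, ?_, ?_⟩
  · intro v hv
    refine ⟨(hV v hv).2.2.1, ?_, hah v hv, ?_⟩
    · have e1 := hlo v hv
      have e2 := hv1 v hv
      have : (16 : ℝ) ≤ a v := by linarith
      exact_mod_cast this
    · refine (hV v hv).2.2.2.trans ?_
      exact mul_le_mul_of_nonneg_left (hlo v hv) (hN0 v hv)
  · intro x hx
    exact ⟨(hR x hx).1, (hR x hx).2.1, hRl x hx, (hR x hx).2.2.2⟩
  · have e1 := hbig2.trans hsq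
    have e2 : 1024 * et k ^ 2 = 2 ^ 26 * ((2 : ℝ) ^ k) ^ 2 := by rw [het]; ring
    have e3 : (0 : ℝ) ≤ ((2 : ℝ) ^ k) ^ 2 := by positivity
    rw [e2]
    linarith
  · rw [hE0, hWW, ← hW]
    exact f1
  · rw [hE0, hWW, ← hW]
    exact f2
  · rw [hWW, ← hW, het]
    linarith
  · rw [condM_lf, condM_lf]
    have : ∑ v ∈ V, N v * (a v + 1).choose 2 + ∑ v ∈ V, g0 v =
        ∑ v ∈ V, 256 * N v * (v + 1).choose 2 + ∑ v ∈ V, g1 v := by
      rw [← Finset.sum_add_distrib, ← Finset.sum_add_distrib]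
      refine Finset.sum_congr rfl fun v hv => ?_
      have := (hL v hv).cd
      simpa using this
    omega
  · unfold WW
    have e1 : ∀ v ∈ V, 15 * (256 * N v * v) ≤ 32 * (g0 v + g1 v) := by
      intro v hv
      have e2 := (hL v hv).gain
      have e3 : N v * v * 256 ≤ 2 * (g0 v + g1 v) + N v * v * 16 := by simpa using e2
      have e4 : 256 * N v * v = 256 * (N v * v) := by ring
      rw [e4]
      omega
    have e4 := Finset.sum_le_sum e1
    rw [← Finset.mul_sum, ← Finset.mul_sum, Finset.sum_add_distrib] at e4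
    exact e4

end Pool.Agent.Q208.GR
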