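import Pool.Agent.H200G.Stm2
import Pool.Agent.Q128.WR.Cor

/-! # Project GR of helper200, job GR-COLOR: the classes of one group. -/

set_option autoImplicit false

namespace Pool.Agent.Q208.GR

open Finset Pool.Agent.TH2.NU Pool.Agent.Y205.FW Pool.Agent.H200W Pool.Agent.H200G

/-- the sum of the squares of the multiset in terms of the classes -/
lemma sq_bound (m : ℕ) (w : Multiset ℕ) (hw : ∀ v ∈ w, 1 ≤ v ∧ v + 1 ≤ m) (V : Finset ℕ)
    (hV : V = w.toFinset.filter fun v => 65536 * m ≤ w.count v * (v + 1)) :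
    (w.map fun v => v ^ 2).sum ≤ ∑ v ∈ V, 256 * (w.count v / 256) * v ^ 2 +
      w.toFinset.card * (65791 * m ^ 2) := by
  classical
  have hVs : V ⊆ w.toFinset := by rw [hV]; exact Finset.filter_subset _ _
  have hsq : (w.map fun v => v ^ 2).sum = ∑ v ∈ w.toFinset, w.count v * v ^ 2 := by
    rw [Finset.sum_multiset_map_count]
    simp
  rw [hsq, ← Finset.sum_sdiff hVs]
  have h1 : ∑ v ∈ w.toFinset \ V, w.count v * v ^ 2 ≤
      (w.toFinset \ V).card * (65536 * m * m) := by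
    refine Finset.sum_le_card_nsmul _ _ _ fun v hv => ?_
    rw [Finset.mem_sdiff, hV, mem_filter, Multiset.mem_toFinset] at hv
    have h2 := hw v hv.1
    have h3 : w.count v * (v + 1) < 65536 * m := by
      by_contra h4
      exact hv.2 ⟨hv.1, not_lt.1 h4⟩
    calc w.count v * v ^ 2 = (w.count v * v) * v := by ring
      _ ≤ (w.count v * (v + 1)) * m := by
          apply Nat.mul_le_mul _ (by omega)
          exact Nat.mul_le_mul_left _ (by omega)
      _ ≤ 65536 * m * m := Nat.mul_le_mul_right _ h3.le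
  have h2 : ∑ v ∈ V, w.count v * v ^ 2 ≤ ∑ v ∈ V, 256 * (w.count v / 256) * v ^ 2 +
      V.card * (255 * m ^ 2) := by
    have h3 : ∑ v ∈ V, w.count v * v ^ 2 ≤
        ∑ v ∈ V, (256 * (w.count v / 256) * v ^ 2 + 255 * m ^ 2) := by
      refine Finset.sum_le_sum fun v hv => ?_
      have hvw : v ∈ w := Multiset.mem_toFinset.1 (hVs hv)
      have h4 : w.count v ≤ 256 * (w.count v / 256) + 255 := by omega
      calc w.count v * v ^ 2 ≤ (256 * (w.count v / 256) + 255) * v ^ 2 :=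
            Nat.mul_le_mul_right _ h4
        _ = 256 * (w.count v / 256) * v ^ 2 + 255 * v ^ 2 := by ring
        _ ≤ _ := by
            apply Nat.add_le_add_left
            apply Nat.mul_le_mul_left
            exact Nat.pow_le_pow_left (by have := (hw v hvw).2; omega) 2
    rw [Finset.sum_add_distrib, Finset.sum_const, smul_eq_mul] at h3
    exact h3
  have h3 : (w.toFinset \ V).card ≤ w.toFinset.card := Finset.card_le_card Finset.sdiff_subset
  have h4 : (w.toFinset \ V).card * (65536 * m * m) ≤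
      w.toFinset.card * (65536 * m * m) := Nat.mul_le_mul_right _ h3
  have h5 : V.card * (255 * m ^ 2) ≤ w.toFinset.card * (255 * m ^ 2) :=
    Nat.mul_le_mul_right _ (Finset.card_le_card hVs)
  have h6 : w.toFinset.card * (65791 * m ^ 2) =
      w.toFinset.card * (255 * m ^ 2) + w.toFinset.card * (65536 * m * m) := by ring
  omega

/-- the numbers of the classes -/
lemma num_bound (m r S T C : ℝ) (hr : 1 ≤ r) (hb : 2 ^ 27 * m ^ 2 * r ≤ S)
    (hs : S ≤ T + r * (65791 * m ^ 2)) (hC : C ≤ 2 * r) :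
    257 * (256 * m) ^ 2 * C ≤ T ∧ 3 / 2 * (2 ^ 26 * m ^ 2) ≤ T ∧ 99 / 100 * S ≤ T := by
  have hp0 : 0 ≤ m ^ 2 := sq_nonneg m
  have hp1 : m ^ 2 ≤ m ^ 2 * r := le_mul_of_one_le_right hp0 hr
  have hc : m ^ 2 * C ≤ m ^ 2 * (2 * r) := mul_le_mul_of_nonneg_left hC hp0
  refine ⟨?_, ?_, ?_⟩
  · nlinarith
  · nlinarith
  · nlinarith

/-- **Job GR-COLOR.** -/
theorem color : S_Color := by
  classical
  rintro k w ⟨hw0, hw, hbig⟩
  obtain ⟨V, hV⟩ : ∃ V : Finset ℕ, V = w.toFinset.filter fun v =>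
    65536 * 2 ^ k ≤ w.count v * (v + 1) := ⟨_, rfl⟩
  obtain ⟨R, hR⟩ : ∃ R : List (ℕ × ℕ), R = (w.toFinset.toList.map fun v =>
    (if v ∈ V then w.count v % 256 else w.count v, v)).filter fun x => decide (1 ≤ x.1) := ⟨_, rfl⟩
  have hVs : V ⊆ w.toFinset := by rw [hV]; exact Finset.filter_subset _ _
  have hdec := Pool.Agent.Q128.WR.decomp w V hVs R hR
  have hw' : ∀ v ∈ w, 1 ≤ v ∧ v + 1 ≤ 2 ^ k := fun v hv => ⟨(hw v hv).1, (hw v hv).2⟩
  have hVm : ∀ v ∈ V, 1 ≤ v ∧ v + 1 ≤ 2 ^ k ∧ 65536 * 2 ^ k ≤ w.count v * (v + 1) := by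
    intro v hv
    rw [hV, mem_filter, Multiset.mem_toFinset] at hv
    exact ⟨(hw' v hv.1).1, (hw' v hv.1).2, hv.2⟩
  have hVn : ∀ v ∈ V, 65536 ≤ w.count v := by
    intro v hv
    obtain ⟨h1, h2, h3⟩ := hVm v hv
    by_contra hcon
    push Not at hcon
    have h4 : w.count v * (v + 1) < 65536 * (v + 1) := Nat.mul_lt_mul_of_pos_right hcon (by omega)
    have h5 : 65536 * (v + 1) ≤ 65536 * 2 ^ k := Nat.mul_le_mul_left _ h2
    omega
  have hRlen : R.length ≤ w.toFinset.card := by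
    rw [hR]
    refine (List.length_filter_le _ _).trans ?_
    rw [List.length_map, Finset.length_toList]
  have hVcard : V.card ≤ w.toFinset.card := Finset.card_le_card hVs
  have hsq2 := sq_bound (2 ^ k) w hw' V hV
  have hr1 : 1 ≤ w.toFinset.card := by
    rw [Nat.one_le_iff_ne_zero, Finset.card_ne_zero]
    obtain ⟨a, ha⟩ := Multiset.exists_mem_of_ne_zero hw0
    exact ⟨a, Multiset.mem_toFinset.2 ha⟩
  have h4k : ((4 : ℝ)) ^ k = ((2 : ℝ) ^ k) ^ 2 := by
    rw [← pow_mul, mul_comm, pow_mul]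
    norm_num
  have hcastS : (((w.map fun v => v ^ 2).sum : ℕ) : ℝ) = (w.map fun v : ℕ => (v : ℝ) ^ 2).sum := by
    rw [Nat.cast_multiset_sum, Multiset.map_map]
    congr 1
    apply Multiset.map_congr rfl
    intro v _
    simp
  have hcastT : ((∑ v ∈ V, 256 * (w.count v / 256) * v ^ 2 : ℕ) : ℝ) =
      ∑ v ∈ V, (256 * ((w.count v / 256 : ℕ) : ℝ)) * (v : ℝ) ^ 2 := by
    push_cast
    rfl
  have hbigR : (2 : ℝ) ^ 27 * ((2 : ℝ) ^ k) ^ 2 * (w.toFinset.card : ℝ) ≤
      (w.map fun v : ℕ => (v : ℝ) ^ 2).sum := by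
    rw [← hcastS, ← h4k]
    exact_mod_cast hbig
  have hsR : (w.map fun v : ℕ => (v : ℝ) ^ 2).sum ≤
      ∑ v ∈ V, (256 * ((w.count v / 256 : ℕ) : ℝ)) * (v : ℝ) ^ 2 +
        (w.toFinset.card : ℝ) * (65791 * ((2 : ℝ) ^ k) ^ 2) := by
    rw [← hcastS, ← hcastT]
    exact_mod_cast hsq2
  have hC : (R.length : ℝ) + (V.card : ℝ) ≤ 2 * (w.toFinset.card : ℝ) := by
    have h1 : (R.length : ℝ) ≤ w.toFinset.card := by exact_mod_cast hRlen
    have h2 : (V.card : ℝ) ≤ w.toFinset.card := by exact_mod_cast hVcard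
    linarith
  have hrR : (1 : ℝ) ≤ w.toFinset.card := by exact_mod_cast hr1
  obtain ⟨n1, n2, n3⟩ := num_bound ((2 : ℝ) ^ k) (w.toFinset.card : ℝ) _ _ _ hrR hbigR hsR hC
  refine ⟨V, fun v => w.count v / 256, R, ⟨?_, ?_, n1, ?_⟩, hdec.symm, n3⟩
  · intro v hv
    obtain ⟨h1, h2, h3⟩ := hVm v hv
    have h4 := hVn v hv
    refine ⟨h1, h2, ?_, ?_⟩
    · show 1 ≤ w.count v / 256
      omega
    · have h5 : w.count v ≤ 256 * (w.count v / 256) + 255 := by omega
      have h5' : (w.count v : ℝ) ≤ 256 * ((w.count v / 256 : ℕ) : ℝ) + 255 := by exact_mod_cast h5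
      have h3' : 65536 * (2 : ℝ) ^ k ≤ (w.count v : ℝ) * ((v : ℝ) + 1) := by exact_mod_cast h3
      have h1' : (1 : ℝ) ≤ v := by exact_mod_cast h1
      have h2' : (v : ℝ) + 1 ≤ (2 : ℝ) ^ k := by exact_mod_cast h2
      have h6 : (w.count v : ℝ) * ((v : ℝ) + 1) ≤ 2 * ((w.count v : ℝ) * v) := by
        have : (0 : ℝ) ≤ (w.count v : ℝ) * ((v : ℝ) - 1) :=
          mul_nonneg (Nat.cast_nonneg _) (by linarith)
        linarith
      have h7 : (w.count v : ℝ) * v ≤ (256 * ((w.count v / 256 : ℕ) : ℝ) + 255) * v :=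
        mul_le_mul_of_nonneg_right h5' (by linarith)
      show 4 * (256 * (2 : ℝ) ^ k) ≤ ((w.count v / 256 : ℕ) : ℝ) * (16 * (v : ℝ))
      linarith
  · intro x hx
    rw [hR, List.mem_filter, List.mem_map] at hx
    obtain ⟨⟨v, hv, hvx⟩, hx1⟩ := hx
    rw [Finset.mem_toList, Multiset.mem_toFinset] at hv
    obtain ⟨h1, h2⟩ := hw' v hv
    have hx1' : 1 ≤ x.1 := by simpa using hx1
    rw [← hvx] at hx1' ⊢
    refine ⟨hx1', h1, h2, ?_⟩
    have h2' : (v : ℝ) + 1 ≤ (2 : ℝ) ^ k := by exact_mod_cast h2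
    have h1' : (1 : ℝ) ≤ v := by exact_mod_cast h1
    show (((if v ∈ V then w.count v % 256 else w.count v : ℕ)) : ℝ) * ((v : ℝ) + 1) ≤
      256 * (256 * (2 : ℝ) ^ k)
    split_ifs with hvV
    · have h3 : w.count v % 256 ≤ 255 := by omega
      have h3' : ((w.count v % 256 : ℕ) : ℝ) ≤ 255 := by exact_mod_cast h3
      have h4 : ((w.count v % 256 : ℕ) : ℝ) * ((v : ℝ) + 1) ≤ 255 * ((v : ℝ) + 1) :=
        mul_le_mul_of_nonneg_right h3' (by linarith)
      linarith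
    · have h3 : w.count v * (v + 1) < 65536 * 2 ^ k := by
        by_contra h4
        apply hvV
        rw [hV, mem_filter, Multiset.mem_toFinset]
        exact ⟨hv, not_lt.1 h4⟩
      have h3' : (w.count v : ℝ) * ((v : ℝ) + 1) < 65536 * (2 : ℝ) ^ k := by exact_mod_cast h3
      linarith
  · rw [h4k]
    exact n2

end Pool.Agent.Q208.GR
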