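import Pool.Agent.H200G.Stm2
import Pool.Agent.Q104.CH.Vof
import Pool.Agent.Q68.CH.Gen
import Pool.Agent.Q68.CH.GenB
import Pool.Agent.Q68.CH.Ms
import Pool.Agent.Q68.CH.Tor
import Pool.Agent.Q187.CHC.Deg
import Pool.Agent.Q187.CHC.Block

/-! # Project GR of helper200, job GR-CORNER3: three points go to the corners. -/

set_option autoImplicit false

namespace Pool.Agent.Q208.GR

open Finset Pool.Agent.TH176.Nag Pool.Agent.TH603.Sur Pool.Agent.TH2.NU Pool.Agent.TH641.UM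
open Pool.Agent.H200W Pool.Agent.H200C Pool.Agent.H200G

/-- the line `z = 0` is a curve -/
lemma EC_of_EB {e : ℕ} {W M : Multiset ℕ} {S : Set (ℕ × ℕ)} (h : EB W M S) : EC e W M S := by
  obtain ⟨K, hF, hC, ξ, x, y, hI⟩ := h
  refine ⟨K, hF, hC, 0, ξ, x, y, by simp, ?_⟩
  have e1 : (fun i => Polynomial.eval (ξ i) (0 : Polynomial K)) = fun _ => (0 : K) := by
    funext i
    simp
  rw [e1]
  exact hI

lemma SC_of_SB {e : ℕ} {W M : Multiset ℕ} {S : Set (ℕ × ℕ)} (h : SB W M S) : SC e W M S := by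
  obtain ⟨T, h1, h2, h3⟩ := h
  exact ⟨T, h1, h2, EC_of_EB h3⟩

lemma qd_part (v : ℕ) (S : Set (ℤ × ℤ)) :
    qd {p | p ∈ S ∧ (v : ℤ) ≤ p.1 + p.2} = {p | p ∈ qd S ∧ v ≤ p.1 + p.2} := by
  ext ⟨a, b⟩
  constructor
  · rintro ⟨h1, h2⟩
    refine ⟨h1, ?_⟩
    simp only at h2 ⊢
    omega
  · rintro ⟨h1, h2⟩
    refine ⟨h1, ?_⟩
    simp only at h2 ⊢
    omega

lemma qd_finite {S : Set (ℤ × ℤ)} (hS : S.Finite) : (qd S).Finite := by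
  refine hS.preimage (f := fun p : ℕ × ℕ => ((p.1 : ℤ), (p.2 : ℤ))) ?_
  rintro ⟨a, b⟩ _ ⟨c, d⟩ _ h
  simp only [Prod.mk.injEq, Nat.cast_inj] at h
  exact Prod.ext h.1 h.2

/-- a point goes to the corner, emptiness -/
lemma corE (hT : Tor) (hB : Block) (v : ℕ) (M : Multiset ℕ) (S : Set (ℤ × ℤ)) (hf : S.Finite)
    (h0 : ∀ m ∈ S, 0 ≤ m.1 ∧ 0 ≤ m.2) (h : EmpM M {p | p ∈ S ∧ (v : ℤ) ≤ p.1 + p.2}) :
    EmpM ({v} + M) S := by
  have h1 := (hT.1 _ _ h).1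
  rw [qd_part] at h1
  have h2 := hB.1 v 0 M (qd S) (qd_finite hf) h1
  rw [add_zero] at h2
  exact hT.2.2.1 0 {v} M S hf h0 (EC_of_EB h2)

/-- a point goes to the corner, independence -/
lemma corS (hT : Tor) (hB : Block) (v : ℕ) (M : Multiset ℕ) (S : Set (ℤ × ℤ))
    (h0 : ∀ m ∈ S, 0 ≤ m.1 ∧ 0 ≤ m.2)
    (hc : ∀ m : ℤ × ℤ, 0 ≤ m.1 → 0 ≤ m.2 → m.1 + m.2 < (v : ℤ) → m ∈ S)
    (h : SurM M {p | p ∈ S ∧ (v : ℤ) ≤ p.1 + p.2}) : SurM ({v} + M) S := by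
  have h1 := (hT.2.1 _ _ (fun m hm => h0 m hm.1) h).1
  rw [qd_part] at h1
  have h2 := hB.2 v 0 M (qd S) (by
    rintro ⟨a, b⟩ hab
    refine hc (_, _) (by simp) (by simp) ?_
    simp only at hab ⊢
    omega) h1
  rw [add_zero] at h2
  exact hT.2.2.2 0 {v} M S h0 (SC_of_SB h2)

lemma mem_HX (M1 M2 M3 d : ℕ) (p : ℤ × ℤ) : p ∈ (↑(HX M1 M2 M3 d) : Set (ℤ × ℤ)) ↔
    0 ≤ p.1 ∧ p.1 ≤ (d : ℤ) - M2 ∧ 0 ≤ p.2 ∧ p.2 ≤ (d : ℤ) - M1 ∧ p.1 + p.2 ≤ (d : ℤ) ∧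
      (M3 : ℤ) ≤ p.1 + p.2 := by
  rw [Finset.mem_coe, HX, mem_filter, mem_product, mem_Icc, mem_Icc]
  tauto

lemma HX_nonneg (M1 M2 M3 d : ℕ) : ∀ m ∈ (↑(HX M1 M2 M3 d) : Set (ℤ × ℤ)), 0 ≤ m.1 ∧ 0 ≤ m.2 := by
  intro m hm
  rw [mem_HX] at hm
  exact ⟨hm.1, hm.2.2.1⟩

lemma HX_part (M1 M2 M3 d : ℕ) : (↑(HX M1 M2 M3 d) : Set (ℤ × ℤ)) =
    {p | p ∈ (↑(HX M1 M2 0 d) : Set (ℤ × ℤ)) ∧ (M3 : ℤ) ≤ p.1 + p.2} := by
  ext p
  rw [Set.mem_setOf_eq, mem_HX, mem_HX]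
  constructor
  · rintro ⟨h1, h2, h3, h4, h5, h6⟩
    exact ⟨⟨h1, h2, h3, h4, h5, by push_cast; omega⟩, h6⟩
  · rintro ⟨⟨h1, h2, h3, h4, h5, h6⟩, h7⟩
    exact ⟨h1, h2, h3, h4, h5, h7⟩

/-- **Job GR-CORNER3**, with the two lemmas of the project CH as hypotheses. -/
theorem corner3' (hT : Tor) (hB : Block) : S_Corner3 := by
  intro M1 M2 M3 f W h32 h21 hf
  have e3 : ({M1, M2, M3} : Multiset ℕ) + W = {M1} + ({M2} + ({M3} + W)) := by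
    have e1 : ({M1, M2, M3} : Multiset ℕ) = M1 ::ₘ M2 ::ₘ {M3} := rfl
    rw [e1, Multiset.cons_add, Multiset.cons_add, Multiset.singleton_add M1,
      Multiset.singleton_add M2]
  rw [e3]
  constructor
  · intro h
    -- the point `M3`
    rw [HX_part M1 M2 M3 f] at h
    have h1 := corS hT hB M3 W (↑(HX M1 M2 0 f) : Set (ℤ × ℤ)) (HX_nonneg _ _ _ _) (by
      intro m a1 a2 a3
      rw [mem_HX]
      refine ⟨a1, ?_, a2, ?_, ?_, ?_⟩ <;> omega) h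
    have h2 : SurM ({M3} + W) (↑(HX M1 0 M2 f) : Set (ℤ × ℤ)) := by
      unfold SurM at h1 ⊢
      refine h1.comap (-1) (-1) 0 1 f 0 (by norm_num) ?_
      rintro ⟨x, y⟩ hm
      rw [mem_HX] at hm
      simp only at hm
      refine ⟨((f : ℤ) - x - y, y), ?_, ?_⟩
      · rw [mem_HX]
        simp only
        omega
      · simp only [Prod.mk.injEq]
        constructor <;> ring
    -- the point `M2`
    rw [HX_part M1 0 M2 f] at h2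
    have h3 := corS hT hB M2 _ (↑(HX M1 0 0 f) : Set (ℤ × ℤ)) (HX_nonneg _ _ _ _) (by
      intro m a1 a2 a3
      rw [mem_HX]
      refine ⟨a1, ?_, a2, ?_, ?_, ?_⟩ <;> omega) h2
    have h4 : SurM ({M2} + ({M3} + W)) (↑(HX 0 0 M1 f) : Set (ℤ × ℤ)) := by
      unfold SurM at h3 ⊢
      refine h3.comap 1 0 (-1) (-1) 0 f (by norm_num) ?_
      rintro ⟨x, y⟩ hm
      rw [mem_HX] at hm
      simp only at hm
      refine ⟨(x, (f : ℤ) - x - y), ?_, ?_⟩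
      · rw [mem_HX]
        simp only
        omega
      · simp only [Prod.mk.injEq]
        constructor <;> ring
    rw [HX_part 0 0 M1 f] at h4
    exact corS hT hB M1 _ (↑(HX 0 0 0 f) : Set (ℤ × ℤ)) (HX_nonneg _ _ _ _) (by
      intro m a1 a2 a3
      rw [mem_HX]
      refine ⟨a1, ?_, a2, ?_, ?_, ?_⟩ <;> omega) h4
  · intro h
    rw [HX_part M1 M2 M3 f] at h
    have h1 := corE hT hB M3 W (↑(HX M1 M2 0 f) : Set (ℤ × ℤ)) (Finset.finite_toSet _)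
      (HX_nonneg _ _ _ _) h
    have h2 : EmpM ({M3} + W) (↑(HX M1 0 M2 f) : Set (ℤ × ℤ)) := by
      unfold EmpM at h1 ⊢
      refine h1.comap (-1) (-1) 0 1 f 0 (by norm_num) ?_
      rintro ⟨x, y⟩ hm
      rw [mem_HX] at hm ⊢
      simp only at hm ⊢
      omega
    rw [HX_part M1 0 M2 f] at h2
    have h3 := corE hT hB M2 _ (↑(HX M1 0 0 f) : Set (ℤ × ℤ)) (Finset.finite_toSet _)
      (HX_nonneg _ _ _ _) h2
    have h4 : EmpM ({M2} + ({M3} + W)) (↑(HX 0 0 M1 f) : Set (ℤ × ℤ)) := by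
      unfold EmpM at h3 ⊢
      refine h3.comap 1 0 (-1) (-1) 0 f (by norm_num) ?_
      rintro ⟨x, y⟩ hm
      rw [mem_HX] at hm ⊢
      simp only at hm ⊢
      omega
    rw [HX_part 0 0 M1 f] at h4
    exact corE hT hB M1 _ (↑(HX 0 0 0 f) : Set (ℤ × ℤ)) (Finset.finite_toSet _)
      (HX_nonneg _ _ _ _) h4

/-- **Job GR-CORNER3.** -/
theorem corner3 : S_Corner3 := by
  have pgen : Gen := Pool.Agent.Q68.CH.gen Pool.Agent.Q104.CH.vof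
  have pG := Pool.Agent.Q68.CH.genB pgen
  have pT : Tor := Pool.Agent.Q68.CH.tor Pool.Agent.Q104.CH.vof pG.2.1 pG.2.2
  have pB : Block := Q187.CHC.block Pool.Agent.Q104.CH.vof pG.1 pG.2.2
      (Q187.CHC.deg Pool.Agent.Q104.CH.vof).2 Pool.Agent.Q68.CH.msP
  intro M1 M2 M3 f W h1 h2 h3
  exact corner3' pT pB W h1 h2 h3

end Pool.Agent.Q208.GR
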