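import Pool.Agent.Q208.GR.Variation

/-!
# `ℓ_∞` is a Grothendieck space
-/

set_option autoImplicit false

open Filter Topology Set BoundedContinuousFunction

namespace Pool.Agent.Q208.GR

/-- Helly's theorem, in the form needed here. -/
theorem helly (μ : ℕ → StrongDual ℝ X) (Φ : StrongDual ℝ X →ₗ[ℝ] ℝ) (hΦ : ∀ ν, Φ ν ≤ ‖ν‖)
    (δ δ' : ℝ) (hδ : δ' < δ) (h : ∀ n, δ ≤ Φ (μ n)) (k : ℕ) :
    ∃ g : X, ‖g‖ ≤ 1 ∧ ∀ n ≤ k, δ' ≤ μ n g := by
  by_contra hcon
  push Not at hcon
  let T : X →L[ℝ] (Fin (k + 1) → ℝ) := ContinuousLinearMap.pi fun n => μ n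
  have hT : ∀ g n, T g n = μ n g := fun g n => rfl
  let D : Set (Fin (k + 1) → ℝ) := T '' Metric.closedBall 0 1
  let U : Set (Fin (k + 1) → ℝ) := Set.pi univ fun _ => Ioi δ'
  have hD : Convex ℝ D := (convex_closedBall (0 : X) 1).linear_image T.toLinearMap
  have hU : Convex ℝ U := convex_pi fun _ _ => convex_Ioi δ'
  have hUo : IsOpen U := isOpen_set_pi finite_univ fun _ _ => isOpen_Ioi
  have hdis : Disjoint U D := by
    rw [Set.disjoint_left]
    rintro _ hu ⟨g, hg, rfl⟩
    obtain ⟨n, hn, hn2⟩ := hcon g (by simpa using hg)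
    have h1 := hu ⟨n, by omega⟩ (mem_univ _)
    rw [hT] at h1
    exact absurd (show δ' < μ n g from h1) (not_lt.mpr hn2.le)
  obtain ⟨f, u, hf1, hf2⟩ := geometric_hahn_banach_open hU hUo hD hdis
  let c : Fin (k + 1) → ℝ := fun n => f (Pi.single n 1)
  have hf : ∀ v : Fin (k + 1) → ℝ, f v = ∑ n, v n * c n := by
    intro v
    have h1 := LinearMap.pi_apply_eq_sum_univ f.toLinearMap v
    simp only [ContinuousLinearMap.coe_coe, smul_eq_mul] at h1
    rw [h1]
    refine Finset.sum_congr rfl fun n _ => ?_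
    congr 2
    ext j
    simp [Pi.single_apply, eq_comm]
  let v0 : Fin (k + 1) → ℝ := fun _ => (δ + δ') / 2
  have hv0 : v0 ∈ U := fun n _ => by
    show δ' < (δ + δ') / 2
    linarith
  have hfv0 := hf1 v0 hv0
  have hc : ∀ n, c n ≤ 0 := by
    intro n
    by_contra hcn
    push Not at hcn
    have ht : 0 ≤ (u - f v0) / c n := div_nonneg (by linarith) hcn.le
    have h1 := hf1 (v0 + ((u - f v0) / c n) • Pi.single n 1) (by
      intro j _
      show δ' < v0 j + ((u - f v0) / c n) • (Pi.single n (1 : ℝ) : Fin (k + 1) → ℝ) j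
      have h2 : (0 : ℝ) ≤ (Pi.single n (1 : ℝ) : Fin (k + 1) → ℝ) j := by
        by_cases hj : j = n
        · subst hj; simp
        · simp [hj]
      have h3 := hv0 j (mem_univ _)
      have h4 : 0 ≤ ((u - f v0) / c n) • (Pi.single n (1 : ℝ) : Fin (k + 1) → ℝ) j :=
        mul_nonneg ht h2
      have h5 : δ' < v0 j := h3
      linarith)
    rw [map_add, map_smul, smul_eq_mul] at h1
    have h2 : (u - f v0) / c n * f (Pi.single n 1) = u - f v0 := div_mul_cancel₀ _ hcn.ne'
    rw [h2] at h1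
    linarith
  have hu0 : u ≤ 0 := by
    have := hf2 0 ⟨0, by simp, by simp⟩
    simpa using this
  let ν : StrongDual ℝ X := ∑ n : Fin (k + 1), (-c n) • μ n
  have hν : ∀ g, ν g = -f (T g) := by
    intro g
    rw [hf]
    simp only [ν, FunLike.coe_sum, Finset.sum_apply, FunLike.coe_smul, Pi.smul_apply, smul_eq_mul, hT]
    rw [← Finset.sum_neg_distrib]
    exact Finset.sum_congr rfl fun n _ => by ring
  have hνn : ‖ν‖ ≤ -u := by
    refine ContinuousLinearMap.opNorm_le_of_unit_norm (by linarith) fun x hx => ?_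
    rw [Real.norm_eq_abs, abs_le]
    have h1 := hf2 (T x) ⟨x, by simp [hx], rfl⟩
    have h2 := hf2 (T (-x)) ⟨-x, by simp [hx], rfl⟩
    rw [map_neg, map_neg] at h2
    rw [hν]
    constructor <;> linarith
  have hΦν : Φ ν ≤ -u := (hΦ ν).trans hνn
  have h1 : Φ ν = ∑ n : Fin (k + 1), (-c n) * Φ (μ n) := by
    simp only [ν, map_sum, map_smul, smul_eq_mul]
  have h2 : ∑ n : Fin (k + 1), (-c n) * δ ≤ Φ ν := by
    rw [h1]
    exact Finset.sum_le_sum fun n _ =>
      mul_le_mul_of_nonneg_left (h n) (by linarith [hc n])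
  rw [← Finset.sum_mul] at h2
  have h3 : f v0 = -((∑ n, -c n) * ((δ + δ') / 2)) := by
    rw [hf]
    simp only [v0]
    rw [← Finset.mul_sum, Finset.sum_neg_distrib]
    ring
  have h4 : 0 ≤ ∑ n, -c n := Finset.sum_nonneg fun n _ => by linarith [hc n]
  rw [h3] at hfv0
  nlinarith

/-! ### The control functional -/

/-- The control functional `Λ`. -/
noncomputable def Lam (μ : ℕ → StrongDual ℝ X) (f : X) : ℝ := ∑' n, (1 / 2 : ℝ) ^ n * P (μ n) f

section
variable (μ : ℕ → StrongDual ℝ X) (C : ℝ) (hC : ∀ n, ‖μ n‖ ≤ C)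
include hC

theorem Lam_summable (f : X) (hf : ∀ i, 0 ≤ f i) :
    Summable fun n => (1 / 2 : ℝ) ^ n * P (μ n) f := by
  refine Summable.of_nonneg_of_le (fun n => mul_nonneg (by positivity) (P_nonneg _ f hf))
    (fun n => ?_) ((summable_geometric_two).mul_right (C * ‖f‖))
  refine mul_le_mul_of_nonneg_left ?_ (by positivity)
  exact (P_le_norm (μ n) f hf).trans (mul_le_mul_of_nonneg_right (hC n) (norm_nonneg f))

theorem Lam_add (f g : X) (hf : ∀ i, 0 ≤ f i) (hg : ∀ i, 0 ≤ g i) :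
    Lam μ (f + g) = Lam μ f + Lam μ g := by
  unfold Lam
  rw [← (Lam_summable μ C hC f hf).tsum_add (Lam_summable μ C hC g hg)]
  exact tsum_congr fun n => by rw [P_add (μ n) f g hf hg, mul_add]

omit hC in
theorem Lam_smul (c : ℝ) (hc : 0 < c) (f : X) (hf : ∀ i, 0 ≤ f i) :
    Lam μ (c • f) = c * Lam μ f := by
  unfold Lam
  rw [← tsum_mul_left]
  exact tsum_congr fun n => by rw [P_smul (μ n) c hc f hf]; ring

omit hC in
theorem Lam_nonneg (f : X) (hf : ∀ i, 0 ≤ f i) : 0 ≤ Lam μ f :=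
  tsum_nonneg fun n => mul_nonneg (by positivity) (P_nonneg _ f hf)

theorem Lam_mono (f g : X) (hf : ∀ i, 0 ≤ f i) (h : ∀ i, f i ≤ g i) : Lam μ f ≤ Lam μ g :=
  (Lam_summable μ C hC f hf).tsum_le_tsum (fun n =>
    mul_le_mul_of_nonneg_left (P_mono (μ n) f g hf h) (by positivity))
    (Lam_summable μ C hC g fun i => (hf i).trans (h i))

theorem P_le_Lam (n : ℕ) (f : X) (hf : ∀ i, 0 ≤ f i) : P (μ n) f ≤ 2 ^ n * Lam μ f := by
  have h1 := (Lam_summable μ C hC f hf).le_tsum n
    (fun j _ => mul_nonneg (by positivity) (P_nonneg _ f hf))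
  have h2 : (1 / 2 : ℝ) ^ n * P (μ n) f ≤ Lam μ f := h1
  have h3 : (2 : ℝ) ^ n * ((1 / 2 : ℝ) ^ n * P (μ n) f) ≤ 2 ^ n * Lam μ f :=
    mul_le_mul_of_nonneg_left h2 (by positivity)
  rw [← mul_assoc, ← mul_pow] at h3
  norm_num at h3
  exact h3

end

theorem sq_nonneg_apply (g : X) (i : ℕ) : 0 ≤ (g * g) i := by
  rw [BoundedContinuousFunction.mul_apply]
  exact mul_self_nonneg _

/-- The core contradiction. -/
theorem core (μ : ℕ → StrongDual ℝ X) (hnull : ∀ f : X, Tendsto (fun n => μ n f) atTop (𝓝 0))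
    (Φ : StrongDual ℝ X →ₗ[ℝ] ℝ) (hΦ : ∀ ν, Φ ν ≤ ‖ν‖) (δ : ℝ) (hδ : 0 < δ)
    (h : ∀ n, δ ≤ Φ (μ n)) : False := by
  -- uniform boundedness
  obtain ⟨C, hC1, hC⟩ : ∃ C : ℝ, 1 ≤ C ∧ ∀ n, ‖μ n‖ ≤ C := by
    obtain ⟨C, hC⟩ := banach_steinhaus (g := μ) (fun x => by
      obtain ⟨c, hc⟩ := (hnull x).norm.bddAbove_range
      exact ⟨c, fun n => hc (mem_range_self n)⟩)
    exact ⟨max C 1, le_max_right _ _, fun n => (hC n).trans (le_max_left _ _)⟩
  have D : Data (fun n => V (μ n)) (fun A => Lam μ (ind A)) (fun n => 2 ^ n) :=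
    { mono := fun n A B hAB => V_mono _ A B hAB
      sub := fun n A B => V_sub _ A B
      exh := fun ε hε A hA => exhaustive μ hnull C hC ε hε A hA
      lmono := fun A B hAB => by
        refine Lam_mono μ C hC _ _ (ind_nonneg A) fun i => ?_
        by_cases hi : i ∈ A
        · rw [ind_of_mem hi, ind_of_mem (hAB hi)]
        · rw [ind_of_notMem hi]; exact ind_nonneg B i
      lsub := fun A B => by
        show Lam μ (ind (A ∪ B)) ≤ Lam μ (ind A) + Lam μ (ind B)
        rw [← Lam_add μ C hC _ _ (ind_nonneg A) (ind_nonneg B)]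
        refine Lam_mono μ C hC _ _ (ind_nonneg _) fun i => ?_
        rw [BoundedContinuousFunction.add_apply]
        by_cases hA : i ∈ A
        · rw [ind_of_mem hA]
          linarith [ind_le_one (A ∪ B) i, ind_nonneg B i]
        · by_cases hB : i ∈ B
          · rw [ind_of_mem hB]
            linarith [ind_le_one (A ∪ B) i, ind_nonneg A i]
          · rw [ind_of_notMem (A := A ∪ B) (by rintro (h | h); exacts [hA h, hB h])]
            linarith [ind_nonneg A i, ind_nonneg B i]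
      lempty := by
        show Lam μ (ind ∅) = 0
        unfold Lam
        have : ∀ n, P (μ n) (ind ∅) = 0 := fun n => V_empty (μ n)
        simp [this]
      wpos := fun n => by positivity
      dom := fun n A => P_le_Lam μ C hC n _ (ind_nonneg A) }
  -- the convex sets
  let T : ℕ → Set X := fun k => {g | ‖g‖ ≤ 1 ∧ ∀ n ≤ k, δ / 2 ≤ μ n g}
  have hTne : ∀ k, (T k).Nonempty := fun k => by
    obtain ⟨g, hg1, hg2⟩ := helly μ Φ hΦ δ (δ / 2) (by linarith) h k
    exact ⟨g, hg1, hg2⟩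
  have hTanti : ∀ k l, k ≤ l → T l ⊆ T k := fun k l hkl g hg =>
    ⟨hg.1, fun n hn => hg.2 n (hn.trans hkl)⟩
  let Q : X → ℝ := fun g => Lam μ (g * g)
  have hQ0 : ∀ g, 0 ≤ Q g := fun g => Lam_nonneg μ _ (sq_nonneg_apply g)
  have hQ1 : ∀ g, ‖g‖ ≤ 1 → Q g ≤ Lam μ (ind univ) := fun g hg => by
    refine Lam_mono μ C hC _ _ (sq_nonneg_apply g) fun i => ?_
    rw [ind_of_mem (mem_univ i), BoundedContinuousFunction.mul_apply]
    have h1 := (abs_le_norm g i).trans hg
    have h2 : g i * g i = |g i| * |g i| := (abs_mul_abs_self _).symm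
    rw [h2]
    exact mul_le_one₀ h1 (abs_nonneg _) h1
  have hbdd : ∀ k, BddBelow (Q '' T k) := fun k => ⟨0, by rintro _ ⟨g, -, rfl⟩; exact hQ0 g⟩
  let d : ℕ → ℝ := fun k => sInf (Q '' T k)
  have hdle : ∀ k, ∀ g ∈ T k, d k ≤ Q g := fun k g hg => csInf_le (hbdd k) ⟨g, hg, rfl⟩
  have hdmono : Monotone d := fun k l hkl =>
    csInf_le_csInf (hbdd k) ((hTne l).image Q) (image_mono (hTanti k l hkl))
  have hdbdd : BddAbove (range d) := by
    refine ⟨Lam μ (ind univ), ?_⟩
    rintro _ ⟨k, rfl⟩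
    obtain ⟨g, hg⟩ := hTne k
    exact (hdle k g hg).trans (hQ1 g hg.1)
  have hg : ∀ k : ℕ, ∃ g ∈ T k, Q g < d k + 1 / ((k : ℝ) + 1) := fun k => by
    obtain ⟨_, ⟨g, hg, rfl⟩, h1⟩ := exists_lt_of_csInf_lt ((hTne k).image Q)
      (show sInf (Q '' T k) < d k + 1 / ((k : ℝ) + 1) by
        have : (0 : ℝ) < 1 / ((k : ℝ) + 1) := by positivity
        show d k < _
        linarith)
    exact ⟨g, hg, h1⟩
  choose g hgT hgQ using hg
  -- Cauchy
  have hcauchy : ∀ k l, k ≤ l → Q (g l - g k) ≤ 2 * (d l - d k) + 4 / ((k : ℝ) + 1) := by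
    intro k l hkl
    have hmid : (1 / 2 : ℝ) • (g k + g l) ∈ T k := by
      refine ⟨?_, fun n hn => ?_⟩
      · rw [norm_smul]
        have h1 := norm_add_le (g k) (g l)
        have h2 := (hgT k).1
        have h3 := (hgT l).1
        have h4 : ‖(1 / 2 : ℝ)‖ = 1 / 2 := by norm_num
        rw [h4]
        linarith
      · rw [map_smul, map_add, smul_eq_mul]
        have h1 := (hgT k).2 n hn
        have h2 := (hgT l).2 n (hn.trans hkl)
        linarith
    have h1 := hdle k _ hmid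
    have h2 : Q ((1 / 2 : ℝ) • (g k + g l)) = 1 / 4 * Q (g k + g l) := by
      show Lam μ _ = 1 / 4 * Lam μ _
      rw [← Lam_smul μ (1 / 4) (by norm_num) _ (sq_nonneg_apply _)]
      congr 1
      rw [smul_mul_smul_comm]
      norm_num
    have h3 : Q (g l - g k) + Q (g k + g l) = 2 * Q (g k) + 2 * Q (g l) := by
      show Lam μ _ + Lam μ _ = 2 * Lam μ _ + 2 * Lam μ _
      rw [← Lam_add μ C hC _ _ (sq_nonneg_apply _) (sq_nonneg_apply _),
        ← Lam_smul μ 2 (by norm_num) _ (sq_nonneg_apply _),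
        ← Lam_smul μ 2 (by norm_num) _ (sq_nonneg_apply _),
        ← Lam_add μ C hC _ _ (fun i => by
          have := sq_nonneg_apply (g k) i
          rw [BoundedContinuousFunction.smul_apply, smul_eq_mul]; linarith)
          (fun i => by
          have := sq_nonneg_apply (g l) i
          rw [BoundedContinuousFunction.smul_apply, smul_eq_mul]; linarith)]
      congr 1
      ext i
      simp only [BoundedContinuousFunction.add_apply, BoundedContinuousFunction.mul_apply,
        BoundedContinuousFunction.sub_apply, BoundedContinuousFunction.smul_apply, smul_eq_mul]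
      ring
    have h4 := hgQ k
    have h5 := hgQ l
    have h6 : 1 / ((l : ℝ) + 1) ≤ 1 / ((k : ℝ) + 1) := by
      apply one_div_le_one_div_of_le (by positivity)
      have : (k : ℝ) ≤ l := by exact_mod_cast hkl
      linarith
    have h7 : 4 / ((k : ℝ) + 1) = 4 * (1 / ((k : ℝ) + 1)) := by ring
    rw [h7]
    linarith
  -- choose the constants
  have hC0 : 0 < C := by linarith
  let s : ℝ := δ / (16 * C)
  have hs : 0 < s := by positivity
  have hsC : s * C = δ / 16 := by
    show δ / (16 * C) * C = δ / 16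
    field_simp
  obtain ⟨δ0, hδ0, huac⟩ := uac D (δ / 16) (by positivity)
  have hη : 0 < s ^ 2 * δ0 := by positivity
  obtain ⟨K, hK⟩ : ∃ K, ∀ l, K ≤ l → Q (g l - g K) < s ^ 2 * δ0 := by
    have hlim := tendsto_atTop_ciSup hdmono hdbdd
    have hev1 : ∀ᶠ k in atTop, (⨆ i, d i) - s ^ 2 * δ0 / 8 < d k :=
      hlim.eventually (lt_mem_nhds (by linarith))
    have hlim2 : Tendsto (fun k : ℕ => 4 / ((k : ℝ) + 1)) atTop (𝓝 0) := by
      have := (tendsto_one_div_add_atTop_nhds_zero_nat (𝕜 := ℝ)).const_mul 4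
      simp only [mul_zero] at this
      refine this.congr fun k => by ring
    have hev2 : ∀ᶠ k : ℕ in atTop, 4 / ((k : ℝ) + 1) < s ^ 2 * δ0 / 2 :=
      hlim2.eventually (gt_mem_nhds (by positivity))
    obtain ⟨K, hK1, hK2⟩ := (hev1.and hev2).exists
    refine ⟨K, fun l hl => ?_⟩
    have h1 := hcauchy K l hl
    have h2 : d l ≤ ⨆ i, d i := le_ciSup hdbdd l
    linarith
  -- the final estimate
  have hfinal : ∀ n, δ / 4 ≤ μ n (g K) := by
    intro n
    let l := max K n
    have hKl : K ≤ l := le_max_left _ _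
    have hnl : n ≤ l := le_max_right _ _
    let A : Set ℕ := {i | s < |(g l - g K) i|}
    have h1 : s ^ 2 * Lam μ (ind A) ≤ Q (g l - g K) := by
      rw [← Lam_smul μ (s ^ 2) (by positivity) _ (ind_nonneg A)]
      refine Lam_mono μ C hC _ _ (fun i => by
        rw [BoundedContinuousFunction.smul_apply, smul_eq_mul]
        exact mul_nonneg (by positivity) (ind_nonneg A i)) fun i => ?_
      rw [BoundedContinuousFunction.smul_apply, smul_eq_mul, BoundedContinuousFunction.mul_apply]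
      by_cases hi : i ∈ A
      · rw [ind_of_mem hi, mul_one, ← abs_mul_abs_self, sq]
        have hi' : s < |(g l - g K) i| := hi
        exact mul_le_mul hi'.le hi'.le hs.le (abs_nonneg _)
      · rw [ind_of_notMem hi, mul_zero]
        exact mul_self_nonneg _
    have h2 : Lam μ (ind A) < δ0 := by
      have h3 := h1.trans_lt (hK l hKl)
      exact lt_of_mul_lt_mul_left h3 (by positivity)
    have h3 : V (μ n) A ≤ δ / 16 := huac A h2 n
    have h4 : μ n (g l - g K) ≤ P (μ n) (s • ind univ + (2 : ℝ) • ind A) := by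
      refine le_P _ _ _ fun i => ?_
      rw [BoundedContinuousFunction.add_apply, BoundedContinuousFunction.smul_apply,
        BoundedContinuousFunction.smul_apply, ind_of_mem (mem_univ i), smul_eq_mul, smul_eq_mul,
        mul_one]
      by_cases hi : i ∈ A
      · rw [ind_of_mem hi, BoundedContinuousFunction.sub_apply]
        have h5 := (abs_le_norm (g l) i).trans (hgT l).1
        have h6 := (abs_le_norm (g K) i).trans (hgT K).1
        have h7 := abs_sub (g l i) (g K i)
        linarith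
      · rw [ind_of_notMem hi]
        have hi' : |(g l - g K) i| ≤ s := not_lt.mp hi
        linarith
    rw [P_add (μ n) _ _ (fun i => by
        rw [BoundedContinuousFunction.smul_apply, smul_eq_mul]
        exact mul_nonneg hs.le (ind_nonneg _ i))
      (fun i => by
        rw [BoundedContinuousFunction.smul_apply, smul_eq_mul]
        exact mul_nonneg (by norm_num) (ind_nonneg _ i)),
      P_smul (μ n) s hs _ (ind_nonneg _), P_smul (μ n) 2 (by norm_num) _ (ind_nonneg _)] at h4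
    have h5 : P (μ n) (ind univ) ≤ C := (V_le_norm (μ n) univ).trans (hC n)
    have h6 : s * P (μ n) (ind univ) ≤ s * C := mul_le_mul_of_nonneg_left h5 hs.le
    have h7 : P (μ n) (ind A) ≤ δ / 16 := h3
    rw [map_sub] at h4
    have h8 := (hgT l).2 n hnl
    linarith
  have hev := (hnull (g K)).eventually (gt_mem_nhds (show (0 : ℝ) < δ / 4 by positivity))
  obtain ⟨n, hn⟩ := hev.exists
  exact absurd (hfinal n) (not_le.mpr hn)

/-- Weak* null sequences in `ℓ_∞^*` are weakly null. -/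
theorem null (μ : ℕ → StrongDual ℝ X) (hnull : ∀ f : X, Tendsto (fun n => μ n f) atTop (𝓝 0))
    (Φ : StrongDual ℝ X →ₗ[ℝ] ℝ) (c : ℝ) (hc : 0 < c) (hΦ : ∀ ν, |Φ ν| ≤ c * ‖ν‖) :
    Tendsto (fun n => Φ (μ n)) atTop (𝓝 0) := by
  by_contra hcon
  rw [Metric.tendsto_atTop] at hcon
  push Not at hcon
  obtain ⟨δ, hδ, hcon⟩ := hcon
  have hfr : ∃ᶠ n in atTop, (δ ≤ Φ (μ n)) ∨ (δ ≤ -Φ (μ n)) := by
    rw [Filter.frequently_atTop]
    intro N
    obtain ⟨n, hn, h1⟩ := hcon N
    refine ⟨n, hn, ?_⟩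
    rw [dist_zero_right, Real.norm_eq_abs] at h1
    exact le_abs.mp h1
  have main : ∀ Ψ : StrongDual ℝ X →ₗ[ℝ] ℝ, (∀ ν, Ψ ν ≤ c * ‖ν‖) →
      (∃ᶠ n in atTop, δ ≤ Ψ (μ n)) → False := by
    intro Ψ hΨ hfr
    obtain ⟨φ, hφ, hφ2⟩ := Filter.extraction_of_frequently_atTop hfr
    refine core (fun n => μ (φ n)) (fun f => (hnull f).comp hφ.tendsto_atTop)
      (c⁻¹ • Ψ) (fun ν => ?_) (c⁻¹ * δ) (by positivity) (fun n => ?_)
    · rw [LinearMap.smul_apply, smul_eq_mul, inv_mul_le_iff₀ hc]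
      exact hΨ ν
    · rw [LinearMap.smul_apply, smul_eq_mul]
      exact mul_le_mul_of_nonneg_left (hφ2 n) (inv_pos.mpr hc).le
  rcases Filter.frequently_or_distrib.mp hfr with h1 | h1
  · exact main Φ (fun ν => (le_abs_self _).trans (hΦ ν)) h1
  · exact main (-Φ) (fun ν => by
      rw [LinearMap.neg_apply]
      exact (neg_le_abs _).trans (hΦ ν)) h1

end Pool.Agent.Q208.GR
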