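import Mathlib

/-!
# Rosenthal's lemma and uniform absolute continuity for finitely additive set functions
-/

set_option autoImplicit false

open Filter Topology Set

namespace Pool.Agent.Q208.GR

/-- Rosenthal's lemma, for superadditive monotone set functions on subsets of `ℕ`. -/
theorem rosenthal (ν : ℕ → Set ℕ → ℝ) (hmono : ∀ k A B, A ⊆ B → ν k A ≤ ν k B)
    (hsup : ∀ k A B, Disjoint A B → ν k A + ν k B ≤ ν k (A ∪ B)) (ε : ℝ) (hε : 0 < ε) :
    ∀ m : ℕ, ∀ S : Set ℕ, S.Infinite → (∀ k ∈ S, ν k S ≤ m * ε) →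
      ∃ M ⊆ S, M.Infinite ∧ ∀ k ∈ M, ν k (M \ {k}) < ε := by
  intro m
  induction m with
  | zero =>
    intro S hS h
    refine ⟨S, subset_rfl, hS, fun k hk => ?_⟩
    have h1 := h k hk
    have h2 := hmono k (S \ {k}) S diff_subset
    simp only [Nat.cast_zero, zero_mul] at h1
    linarith
  | succ m ih =>
    intro S hS h
    let e : ℕ ↪ S := hS.natEmbedding
    let M : ℕ → Set ℕ := fun p => range fun q => (e (Nat.pair p q) : ℕ)
    have hMS : ∀ p, M p ⊆ S := by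
      rintro p _ ⟨q, rfl⟩
      exact (e (Nat.pair p q)).2
    have hMinf : ∀ p, (M p).Infinite := by
      intro p
      apply infinite_range_of_injective
      intro q q' hq
      have h1 := e.injective (Subtype.ext hq)
      exact (Nat.pair_eq_pair.mp h1).2
    have hMdis : ∀ p p' k, k ∈ M p → k ∈ M p' → p = p' := by
      rintro p p' _ ⟨q, rfl⟩ ⟨q', hq'⟩
      have h1 := e.injective (Subtype.ext hq')
      exact (Nat.pair_eq_pair.mp h1).1.symm
    by_cases hc : ∃ p, ∀ k ∈ M p, ν k (M p \ {k}) < ε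
    · obtain ⟨p, hp⟩ := hc
      exact ⟨M p, hMS p, hMinf p, hp⟩
    · push Not at hc
      choose k hk hk2 using hc
      have hkinj : Function.Injective k := fun p p' hpp =>
        hMdis p p' (k p) (hk p) (hpp ▸ hk p')
      have hsub : range k ⊆ S := by
        rintro _ ⟨p, rfl⟩
        exact hMS p (hk p)
      obtain ⟨M', hM', hM'inf, hM'2⟩ := ih (range k) (infinite_range_of_injective hkinj) (by
        rintro _ ⟨p, rfl⟩
        have h1 : Disjoint (range k) (M p \ {k p}) := by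
          rw [Set.disjoint_left]
          rintro _ ⟨p', rfl⟩ ⟨h2, h3⟩
          have := hMdis p' p (k p') (hk p') h2
          exact h3 (by rw [this]; rfl)
        have h2 := hsup (k p) _ _ h1
        have h3 := hmono (k p) (range k ∪ (M p \ {k p})) S
          (union_subset hsub (diff_subset.trans (hMS p)))
        have h4 := h (k p) (hMS p (hk p))
        have h5 := hk2 p
        push_cast at h4
        linarith)
      exact ⟨M', hM'.trans hsub, hM'inf, hM'2⟩

/-- Data for a uniformly exhaustive family `V n` of set functions on `Set ℕ`, each of them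
Lipschitz with respect to a subadditive `lam`. -/
structure Data (V : ℕ → Set ℕ → ℝ) (lam : Set ℕ → ℝ) (w : ℕ → ℝ) : Prop where
  mono : ∀ n A B, A ⊆ B → V n A ≤ V n B
  sub : ∀ n A B, V n (A ∪ B) ≤ V n A + V n B
  exh : ∀ ε : ℝ, 0 < ε → ∀ A : ℕ → Set ℕ, (∀ i j, i < j → Disjoint (A i) (A j)) →
    ∃ k, ∀ n, V n (A k) < ε
  lmono : ∀ A B, A ⊆ B → lam A ≤ lam B
  lsub : ∀ A B, lam (A ∪ B) ≤ lam A + lam B
  lempty : lam ∅ = 0
  wpos : ∀ n, 0 < w n
  dom : ∀ n A, V n A ≤ w n * lam A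

/-- Badness of a set `S`. -/
def Bad (V : ℕ → Set ℕ → ℝ) (lam : Set ℕ → ℝ) (ε : ℝ) (S : Set ℕ) : Prop :=
  ∀ δ : ℝ, 0 < δ → ∃ A ⊆ S, lam A < δ ∧ ∃ n, ε < V n A

theorem bad_step {V : ℕ → Set ℕ → ℝ} {lam : Set ℕ → ℝ} {w : ℕ → ℝ} (D : Data V lam w)
    (ε : ℝ) (S : Set ℕ) (hS : Bad V lam ε S) (η δ : ℝ) (hη : 0 < η) (hδ : 0 < δ) :
    ∃ S' ⊆ S, lam S' < δ ∧ Bad V lam (ε - η) S' := by
  by_contra hcon
  push Not at hcon
  have step : ∀ B : {B : Set ℕ // B ⊆ S ∧ lam B < δ}, ∃ A ⊆ S, lam (B.1 ∪ A) < δ ∧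
      ∃ n, ε < V n A ∧ V n (A ∩ B.1) ≤ ε - η := by
    rintro ⟨B, hB, hB2⟩
    have h1 := hcon B hB hB2
    unfold Bad at h1
    push Not at h1
    obtain ⟨δ', hδ', h2⟩ := h1
    have hgap : 0 < min (δ - lam B) δ' := lt_min (by linarith) hδ'
    obtain ⟨A, hA, hA2, n, hn⟩ := hS _ hgap
    have hA3 : lam A < δ - lam B := hA2.trans_le (min_le_left _ _)
    have hA4 : lam A < δ' := hA2.trans_le (min_le_right _ _)
    refine ⟨A, hA, ?_, n, hn, ?_⟩
    · have := D.lsub B A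
      linarith
    · exact h2 (A ∩ B) inter_subset_right
        ((D.lmono _ _ inter_subset_left).trans_lt hA4) n
  choose A hA hA2 nn hn hn2 using step
  let B : ℕ → {B : Set ℕ // B ⊆ S ∧ lam B < δ} := fun m => Nat.rec
    ⟨∅, empty_subset _, by rw [D.lempty]; exact hδ⟩
    (fun _ b => ⟨b.1 ∪ A b, union_subset b.2.1 (hA b), hA2 b⟩) m
  have hBs : ∀ m, (B (m + 1)).1 = (B m).1 ∪ A (B m) := fun m => rfl
  have hBmono : Monotone fun m => (B m).1 := monotone_nat_of_le_succ fun m => by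
    rw [hBs]
    exact subset_union_left
  obtain ⟨k, hk⟩ := D.exh η hη (fun m => A (B m) \ (B m).1) (by
    intro i j hij
    rw [Set.disjoint_left]
    rintro x ⟨hx, _⟩ ⟨_, hx3⟩
    apply hx3
    have h1 : (B (i + 1)).1 ⊆ (B j).1 := hBmono hij
    apply h1
    rw [hBs]
    exact Or.inr hx)
  have h1 := hk (nn (B k))
  have h2 := hn (B k)
  have h3 := hn2 (B k)
  have h4 := D.sub (nn (B k)) (A (B k) ∩ (B k).1) (A (B k) \ (B k).1)
  rw [inter_union_diff] at h4
  linarith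

/-- Uniform absolute continuity. -/
theorem uac {V : ℕ → Set ℕ → ℝ} {lam : Set ℕ → ℝ} {w : ℕ → ℝ} (D : Data V lam w)
    (ε : ℝ) (hε : 0 < ε) : ∃ δ : ℝ, 0 < δ ∧ ∀ A, lam A < δ → ∀ n, V n A ≤ ε := by
  by_contra hcon
  push Not at hcon
  have h0 : Bad V lam ε univ := fun δ hδ => by
    obtain ⟨A, hA, n, hn⟩ := hcon δ hδ
    exact ⟨A, subset_univ _, hA, n, hn⟩
  have step : ∀ p : {p : ℝ × Set ℕ // ε / 2 < p.1 ∧ Bad V lam p.1 p.2},
      ∃ q : {p : ℝ × Set ℕ // ε / 2 < p.1 ∧ Bad V lam p.1 p.2}, q.1.2 ⊆ p.1.2 ∧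
        ∃ A ⊆ p.1.2, ∃ n, ε / 4 ≤ V n (A \ q.1.2) := by
    rintro ⟨⟨e, S⟩, he, hS⟩
    obtain ⟨A, hA, _, n, hn⟩ := hS 1 one_pos
    have hw := D.wpos n
    obtain ⟨S', hS', h1, h2⟩ := bad_step D e S hS ((e - ε / 2) / 2) (ε / 4 / w n)
      (by simp only at he; linarith) (by positivity)
    simp only at he
    refine ⟨⟨(e - (e - ε / 2) / 2, S'), by simp only; linarith, h2⟩, hS', A, hA, n, ?_⟩
    have h3 := D.sub n (A ∩ S') (A \ S')
    rw [inter_union_diff] at h3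
    have h4 := D.mono n (A ∩ S') S' inter_subset_right
    have h5 := D.dom n S'
    have h6 : w n * lam S' < ε / 4 := by
      rw [lt_div_iff₀ hw] at h1
      linarith
    simp only
    linarith
  choose q hq A hA nn hn using step
  let P : ℕ → {p : ℝ × Set ℕ // ε / 2 < p.1 ∧ Bad V lam p.1 p.2} := fun m => Nat.rec
    ⟨(ε, univ), by simp only; linarith, h0⟩ (fun _ p => q p) m
  have hPs : ∀ m, P (m + 1) = q (P m) := fun m => rfl
  have hPanti : Antitone fun m => (P m).1.2 := antitone_nat_of_succ_le fun m => by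
    rw [hPs]
    exact hq _
  obtain ⟨k, hk⟩ := D.exh (ε / 4) (by positivity) (fun m => A (P m) \ (P (m + 1)).1.2) (by
    intro i j hij
    rw [Set.disjoint_left]
    rintro x ⟨_, hx⟩ ⟨hx2, _⟩
    apply hx
    have h1 : (P j).1.2 ⊆ (P (i + 1)).1.2 := hPanti hij
    exact h1 (hA _ hx2))
  have h1 := hk (nn (P k))
  have h2 := hn (P k)
  rw [← hPs] at h2
  linarith

end Pool.Agent.Q208.GR
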