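import Pool.Agent.Q208.GR.Submeasure

/-!
# The modulus of a functional on `ℓ_∞` and uniform exhaustivity of weak* null sequences
-/

set_option autoImplicit false

open Filter Topology Set BoundedContinuousFunction

namespace Pool.Agent.Q208.GR

/-- `ℓ_∞`. -/
abbrev X : Type := ℕ →ᵇ ℝ

theorem abs_le_norm (f : X) (i : ℕ) : |f i| ≤ ‖f‖ := f.norm_coe_le_norm i

theorem norm_le_of_abs (g f : X) (h : ∀ i, |g i| ≤ f i) : ‖g‖ ≤ ‖f‖ := by
  rw [BoundedContinuousFunction.norm_le (norm_nonneg _)]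
  intro i
  exact (h i).trans ((le_abs_self _).trans (abs_le_norm f i))

/-- The modulus `|μ| (f)` for `f ≥ 0`. -/
noncomputable def P (μ : StrongDual ℝ X) (f : X) : ℝ :=
  sSup {r | ∃ g : X, (∀ i, |g i| ≤ f i) ∧ μ g = r}

theorem P_bdd (μ : StrongDual ℝ X) (f : X) :
    BddAbove {r | ∃ g : X, (∀ i, |g i| ≤ f i) ∧ μ g = r} := by
  refine ⟨‖μ‖ * ‖f‖, ?_⟩
  rintro _ ⟨g, hg, rfl⟩
  calc μ g ≤ ‖μ g‖ := le_abs_self _
    _ ≤ ‖μ‖ * ‖g‖ := μ.le_opNorm g
    _ ≤ ‖μ‖ * ‖f‖ := mul_le_mul_of_nonneg_left (norm_le_of_abs g f hg) (norm_nonneg μ)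

theorem le_P (μ : StrongDual ℝ X) (f g : X) (hg : ∀ i, |g i| ≤ f i) : μ g ≤ P μ f :=
  le_csSup (P_bdd μ f) ⟨g, hg, rfl⟩

theorem neg_le_P (μ : StrongDual ℝ X) (f g : X) (hg : ∀ i, |g i| ≤ f i) : -μ g ≤ P μ f := by
  rw [← map_neg]
  exact le_P μ f (-g) (fun i => by simpa using hg i)

theorem P_nonempty (μ : StrongDual ℝ X) (f : X) (hf : ∀ i, 0 ≤ f i) :
    {r | ∃ g : X, (∀ i, |g i| ≤ f i) ∧ μ g = r}.Nonempty :=
  ⟨μ 0, 0, fun i => by simpa using hf i, rfl⟩

theorem P_le (μ : StrongDual ℝ X) (f : X) (hf : ∀ i, 0 ≤ f i) (c : ℝ)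
    (h : ∀ g : X, (∀ i, |g i| ≤ f i) → μ g ≤ c) : P μ f ≤ c := by
  refine csSup_le (P_nonempty μ f hf) ?_
  rintro _ ⟨g, hg, rfl⟩
  exact h g hg

theorem P_nonneg (μ : StrongDual ℝ X) (f : X) (hf : ∀ i, 0 ≤ f i) : 0 ≤ P μ f := by
  have h := le_P μ f 0 (fun i => by simpa using hf i)
  simpa using h

theorem P_le_norm (μ : StrongDual ℝ X) (f : X) (hf : ∀ i, 0 ≤ f i) : P μ f ≤ ‖μ‖ * ‖f‖ := by
  refine P_le μ f hf _ fun g hg => ?_
  calc μ g ≤ ‖μ g‖ := le_abs_self _
    _ ≤ ‖μ‖ * ‖g‖ := μ.le_opNorm g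
    _ ≤ ‖μ‖ * ‖f‖ := mul_le_mul_of_nonneg_left (norm_le_of_abs g f hg) (norm_nonneg μ)

theorem P_mono (μ : StrongDual ℝ X) (f g : X) (hf : ∀ i, 0 ≤ f i) (h : ∀ i, f i ≤ g i) :
    P μ f ≤ P μ g :=
  P_le μ f hf _ fun u hu => le_P μ g u fun i => (hu i).trans (h i)

theorem P_add (μ : StrongDual ℝ X) (f g : X) (hf : ∀ i, 0 ≤ f i) (hg : ∀ i, 0 ≤ g i) :
    P μ (f + g) = P μ f + P μ g := by
  have hfg : ∀ i, 0 ≤ (f + g) i := fun i => add_nonneg (hf i) (hg i)
  apply le_antisymm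
  · refine P_le μ (f + g) hfg _ fun u hu => ?_
    let u1 : X := (u ⊓ f) ⊔ (-f)
    have hu1 : ∀ i, u1 i = max (min (u i) (f i)) (-(f i)) := fun i => rfl
    have hu' : ∀ i, |u i| ≤ f i + g i := fun i => by simpa using hu i
    have h1 : ∀ i, |u1 i| ≤ f i := by
      intro i
      rw [hu1, abs_le]
      constructor
      · exact le_max_right _ _
      · exact max_le (min_le_right _ _) (by linarith [hf i])
    have h2 : ∀ i, |(u - u1) i| ≤ g i := by
      intro i
      have h3 := abs_le.mp (hu' i)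
      rw [BoundedContinuousFunction.sub_apply, hu1, abs_le]
      have hfi := hf i
      have hgi := hg i
      rcases le_total (u i) (f i) with h4 | h4
      · rw [min_eq_left h4]
        rcases le_total (u i) (-(f i)) with h5 | h5
        · rw [max_eq_right h5]
          constructor <;> linarith [h3.1, h3.2]
        · rw [max_eq_left h5]
          constructor <;> linarith [h3.1, h3.2]
      · rw [min_eq_right h4, max_eq_left (by linarith)]
        constructor <;> linarith [h3.1, h3.2]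
    have h3 : μ u = μ u1 + μ (u - u1) := by rw [← map_add]; congr 1; abel
    rw [h3]
    exact add_le_add (le_P μ f u1 h1) (le_P μ g _ h2)
  · have h1 : ∀ v : X, (∀ i, |v i| ≤ g i) → μ v ≤ P μ (f + g) - P μ f := by
      intro v hv
      have h2 : P μ f ≤ P μ (f + g) - μ v := by
        refine P_le μ f hf _ fun u hu => ?_
        have h3 := le_P μ (f + g) (u + v) (fun i => by
          calc |(u + v) i| = |u i + v i| := rfl
            _ ≤ |u i| + |v i| := abs_add_le _ _
            _ ≤ f i + g i := add_le_add (hu i) (hv i))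
        rw [map_add] at h3
        linarith
      linarith
    have h2 := P_le μ g hg _ h1
    linarith

theorem P_smul_le (μ : StrongDual ℝ X) (c : ℝ) (hc : 0 < c) (f : X) (hf : ∀ i, 0 ≤ f i) :
    P μ (c • f) ≤ c * P μ f := by
  refine P_le μ (c • f) (fun i => by
    simpa using mul_nonneg hc.le (hf i)) _ fun g hg => ?_
  have h1 := le_P μ f (c⁻¹ • g) (fun i => by
    have h2 : |g i| ≤ c * f i := by simpa using hg i
    rw [BoundedContinuousFunction.smul_apply, smul_eq_mul, abs_mul, abs_of_pos (inv_pos.mpr hc)]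
    rw [inv_mul_le_iff₀ hc]
    exact h2)
  rw [map_smul, smul_eq_mul, inv_mul_le_iff₀ hc] at h1
  exact h1

theorem P_smul (μ : StrongDual ℝ X) (c : ℝ) (hc : 0 < c) (f : X) (hf : ∀ i, 0 ≤ f i) :
    P μ (c • f) = c * P μ f := by
  apply le_antisymm (P_smul_le μ c hc f hf)
  have h1 := P_smul_le μ c⁻¹ (inv_pos.mpr hc) (c • f) (fun i => by
    simpa using mul_nonneg hc.le (hf i))
  rw [smul_smul, inv_mul_cancel₀ hc.ne', one_smul, le_inv_mul_iff₀ hc] at h1
  exact h1

open Classical in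
/-- Indicator functions as elements of `ℓ_∞`. -/
noncomputable def ind (A : Set ℕ) : X :=
  BoundedContinuousFunction.ofNormedAddCommGroupDiscrete (fun i => if i ∈ A then (1 : ℝ) else 0) 1
    (fun i => by by_cases h : i ∈ A <;> simp [h])

open Classical in
theorem ind_apply (A : Set ℕ) (i : ℕ) : ind A i = if i ∈ A then 1 else 0 := rfl

theorem ind_of_mem {A : Set ℕ} {i : ℕ} (h : i ∈ A) : ind A i = 1 := by
  rw [ind_apply, if_pos h]

theorem ind_of_notMem {A : Set ℕ} {i : ℕ} (h : i ∉ A) : ind A i = 0 := by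
  rw [ind_apply, if_neg h]

theorem ind_nonneg (A : Set ℕ) (i : ℕ) : 0 ≤ ind A i := by
  by_cases h : i ∈ A
  · rw [ind_of_mem h]; exact zero_le_one
  · rw [ind_of_notMem h]

theorem ind_le_one (A : Set ℕ) (i : ℕ) : ind A i ≤ 1 := by
  by_cases h : i ∈ A
  · rw [ind_of_mem h]
  · rw [ind_of_notMem h]; exact zero_le_one

theorem norm_ind_le (A : Set ℕ) : ‖ind A‖ ≤ 1 := by
  rw [BoundedContinuousFunction.norm_le zero_le_one]
  intro i
  rw [Real.norm_eq_abs, abs_of_nonneg (ind_nonneg A i)]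
  exact ind_le_one A i

/-- The variation `|μ| (A)`. -/
noncomputable def V (μ : StrongDual ℝ X) (A : Set ℕ) : ℝ := P μ (ind A)

theorem V_mono (μ : StrongDual ℝ X) (A B : Set ℕ) (h : A ⊆ B) : V μ A ≤ V μ B := by
  refine P_mono μ _ _ (ind_nonneg A) fun i => ?_
  by_cases hi : i ∈ A
  · rw [ind_of_mem hi, ind_of_mem (h hi)]
  · rw [ind_of_notMem hi]; exact ind_nonneg B i

theorem ind_union (A B : Set ℕ) (h : Disjoint A B) : ind (A ∪ B) = ind A + ind B := by
  ext i
  rw [BoundedContinuousFunction.add_apply]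
  by_cases hA : i ∈ A
  · have hB : i ∉ B := fun hB => Set.disjoint_left.mp h hA hB
    rw [ind_of_mem hA, ind_of_notMem hB, ind_of_mem (Or.inl hA), add_zero]
  · by_cases hB : i ∈ B
    · rw [ind_of_notMem hA, ind_of_mem hB, ind_of_mem (Or.inr hB), zero_add]
    · rw [ind_of_notMem hA, ind_of_notMem hB, ind_of_notMem, add_zero]
      rintro (h | h)
      · exact hA h
      · exact hB h

theorem V_disj (μ : StrongDual ℝ X) (A B : Set ℕ) (h : Disjoint A B) :
    V μ (A ∪ B) = V μ A + V μ B := by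
  unfold V
  rw [ind_union A B h, P_add μ _ _ (ind_nonneg A) (ind_nonneg B)]

theorem V_nonneg (μ : StrongDual ℝ X) (A : Set ℕ) : 0 ≤ V μ A := P_nonneg μ _ (ind_nonneg A)

theorem V_sub (μ : StrongDual ℝ X) (A B : Set ℕ) : V μ (A ∪ B) ≤ V μ A + V μ B := by
  have h1 : A ∪ B = A ∪ (B \ A) := by rw [union_diff_self]
  rw [h1, V_disj μ A (B \ A) disjoint_sdiff_right]
  have := V_mono μ (B \ A) B diff_subset
  linarith

theorem V_le_norm (μ : StrongDual ℝ X) (A : Set ℕ) : V μ A ≤ ‖μ‖ := by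
  refine (P_le_norm μ _ (ind_nonneg A)).trans ?_
  exact mul_le_of_le_one_right (norm_nonneg μ) (norm_ind_le A)

theorem V_empty (μ : StrongDual ℝ X) : V μ ∅ = 0 := by
  have h := V_disj μ ∅ ∅ (disjoint_bot_left)
  rw [union_self] at h
  linarith

/-- Finite disjoint sums. -/
theorem V_sum (μ : StrongDual ℝ X) (A : ℕ → Set ℕ) (hA : ∀ i j, i < j → Disjoint (A i) (A j))
    (F : Finset ℕ) : ∑ k ∈ F, V μ (A k) = V μ (⋃ k ∈ F, A k) := by
  classical
  induction F using Finset.induction_on with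
  | empty => simp [V_empty]
  | insert a F ha ih =>
    rw [Finset.sum_insert ha, ih, Finset.set_biUnion_insert, V_disj]
    rw [Set.disjoint_iUnion₂_right]
    intro k hk
    have hne : k ≠ a := fun h => ha (h ▸ hk)
    rcases lt_or_gt_of_ne hne with h | h
    · exact (hA k a h).symm
    · exact hA a k h

/-- For a fixed functional only finitely many of the disjoint sets carry variation `≥ ε`. -/
theorem V_finite (μ : StrongDual ℝ X) (A : ℕ → Set ℕ) (hA : ∀ i j, i < j → Disjoint (A i) (A j))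
    (ε : ℝ) (hε : 0 < ε) : {k | ε ≤ V μ (A k)}.Finite := by
  by_contra hinf
  obtain ⟨m, hm⟩ := exists_nat_gt (‖μ‖ / ε)
  obtain ⟨F, hF, hcard⟩ := Set.Infinite.exists_subset_card_eq hinf m
  have h1 : (m : ℝ) * ε ≤ ∑ k ∈ F, V μ (A k) := by
    rw [← hcard, ← nsmul_eq_mul]
    exact Finset.card_nsmul_le_sum F _ _ fun k hk => hF hk
  rw [V_sum μ A hA] at h1
  have h2 := V_le_norm μ (⋃ k ∈ F, A k)
  rw [div_lt_iff₀ hε] at hm
  linarith

/-- Uniform exhaustivity (Phillips, Rosenthal): if `μ n → 0` weak*, then along every disjoint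
sequence of sets the variations tend to `0` uniformly in `n`. -/
theorem exhaustive (μ : ℕ → StrongDual ℝ X) (hnull : ∀ f : X, Tendsto (fun n => μ n f) atTop (𝓝 0))
    (C : ℝ) (hC : ∀ n, ‖μ n‖ ≤ C) (ε : ℝ) (hε : 0 < ε) (A : ℕ → Set ℕ)
    (hA : ∀ i j, i < j → Disjoint (A i) (A j)) : ∃ k, ∀ n, V (μ n) (A k) < ε := by
  classical
  by_contra hcon
  push Not at hcon
  choose nn hnn using hcon
  have hA' : ∀ i j x, x ∈ A i → x ∈ A j → i = j := by
    intro i j x hi hj
    by_contra hne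
    rcases lt_or_gt_of_ne hne with h | h
    · exact Set.disjoint_left.mp (hA i j h) hi hj
    · exact Set.disjoint_left.mp (hA j i h) hj hi
  have hg : ∀ k, ∃ g : X, (∀ i, |g i| ≤ ind (A k) i) ∧ 3 * ε / 4 < μ (nn k) g := by
    intro k
    have h1 : 3 * ε / 4 < P (μ (nn k)) (ind (A k)) := by
      have := hnn k
      unfold V at this
      linarith
    obtain ⟨_, ⟨g, hg, rfl⟩, h2⟩ := exists_lt_of_lt_csSup
      (P_nonempty (μ (nn k)) (ind (A k)) (ind_nonneg _)) h1
    exact ⟨g, hg, h2⟩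
  choose g hg hg2 using hg
  obtain ⟨m, hm⟩ := exists_nat_ge (C / (ε / 4))
  obtain ⟨M, -, hMinf, hM⟩ := rosenthal (fun k B => V (μ (nn k)) (⋃ j ∈ B, A j))
    (fun k B B' h => V_mono _ _ _ (biUnion_subset_biUnion_left h))
    (fun k B B' h => by
      have h1 : (⋃ j ∈ B ∪ B', A j) = (⋃ j ∈ B, A j) ∪ ⋃ j ∈ B', A j := biUnion_union _ _ _
      show V (μ (nn k)) (⋃ j ∈ B, A j) + V (μ (nn k)) (⋃ j ∈ B', A j) ≤
        V (μ (nn k)) (⋃ j ∈ B ∪ B', A j)
      rw [h1, V_disj]
      rw [Set.disjoint_left]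
      intro x hx hx'
      simp only [mem_iUnion, exists_prop] at hx hx'
      obtain ⟨i, hi, hi2⟩ := hx
      obtain ⟨j, hj, hj2⟩ := hx'
      have := hA' i j x hi2 hj2
      subst this
      exact Set.disjoint_left.mp h hi hj)
    (ε / 4) (by positivity) m univ infinite_univ (fun k _ => by
      refine (V_le_norm _ _).trans ((hC _).trans ?_)
      rwa [div_le_iff₀ (by positivity)] at hm)
  -- the glued function
  let F : ℕ → ℝ := fun i => if h : ∃ k ∈ M, i ∈ A k then g h.choose i else 0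
  have hFk : ∀ k ∈ M, ∀ i ∈ A k, F i = g k i := by
    intro k hk i hi
    have h : ∃ k ∈ M, i ∈ A k := ⟨k, hk, hi⟩
    have h1 : F i = g h.choose i := dif_pos h
    rw [h1, hA' h.choose k i h.choose_spec.2 hi]
  have hF0 : ∀ i, (¬ ∃ k ∈ M, i ∈ A k) → F i = 0 := fun i h => dif_neg h
  have hF1 : ∀ i, ‖F i‖ ≤ 1 := by
    intro i
    by_cases h : ∃ k ∈ M, i ∈ A k
    · obtain ⟨k, hk, hi⟩ := h
      rw [hFk k hk i hi]
      exact (hg k i).trans (ind_le_one _ _)
    · rw [hF0 i h]; simp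
  let f : X := BoundedContinuousFunction.ofNormedAddCommGroupDiscrete F 1 hF1
  have hf : ∀ i, f i = F i := fun i => rfl
  have key : ∀ k ∈ M, ε / 2 < μ (nn k) f := by
    intro k hk
    have h1 : ∀ i, |(f - g k) i| ≤ ind (⋃ j ∈ M \ {k}, A j) i := by
      intro i
      rw [BoundedContinuousFunction.sub_apply, hf]
      by_cases hi : i ∈ A k
      · rw [hFk k hk i hi, sub_self, abs_zero]
        exact ind_nonneg _ _
      · have hgk : g k i = 0 := by
          have := hg k i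
          rw [ind_of_notMem hi] at this
          exact abs_nonpos_iff.mp this
        rw [hgk, sub_zero]
        by_cases h : ∃ j ∈ M, i ∈ A j
        · obtain ⟨j, hj, hij⟩ := h
          have hjk : j ≠ k := by
            rintro rfl
            exact hi hij
          have hmem : i ∈ ⋃ j ∈ M \ {k}, A j := by
            simp only [mem_iUnion, exists_prop]
            exact ⟨j, ⟨hj, hjk⟩, hij⟩
          rw [ind_of_mem hmem]
          exact hF1 i
        · rw [hF0 i h, abs_zero]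
          exact ind_nonneg _ _
    have h2 := neg_le_P (μ (nn k)) _ _ h1
    have h3 : P (μ (nn k)) (ind (⋃ j ∈ M \ {k}, A j)) < ε / 4 := hM k hk
    rw [map_sub] at h2
    have h4 := hg2 k
    linarith
  -- contradiction
  have hev := (hnull f).eventually (gt_mem_nhds (show (0 : ℝ) < ε / 2 by positivity))
  obtain ⟨N, hN⟩ := eventually_atTop.mp hev
  have hlt : ∀ k ∈ M, nn k < N := by
    intro k hk
    by_contra h
    have h1 := hN (nn k) (not_lt.mp h)
    have h2 := key k hk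
    linarith
  have hfin : (⋃ n ∈ Finset.range N, {k | ε ≤ V (μ n) (A k)}).Finite :=
    Set.Finite.biUnion (Finset.finite_toSet _) fun n _ => V_finite (μ n) A hA ε hε
  exact hMinf (hfin.subset fun k hk => by
    simp only [mem_iUnion, exists_prop, Finset.mem_range]
    exact ⟨nn k, hlt k hk, hnn k⟩)

end Pool.Agent.Q208.GR
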